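import Pool.Agent.Helper922.MR.Final

set_option autoImplicit false

open scoped LinearAlgebra.Projectivization
open Pool.Agent.Helper922.MR

namespace Pool.Agent.Results.MP_cc389e_ag.MRCNotLocallyTrivial

/-- There are a smooth projective variety `X` of dimension `5` with pseudo-effective tangent
bundle and a smooth projective curve `Y` (an elliptic curve) with a holomorphic map `φ : X → Y`
which is the maximal rationally connected fibration of `X` and is not locally trivial. -/
theorem result : ∃ (ι κ : Type) (_ : Fintype ι) (_ : Fintype κ) (X : Set (ℙ ℂ (ι → ℂ)))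
    (Y : Set (ℙ ℂ (κ → ℂ))) (φ : ℙ ℂ (ι → ℂ) → ℙ ℂ (κ → ℂ)),
    IsSmoothProjectiveVariety 5 X ∧ HasPseudoEffectiveTangentBundle 5 X ∧
    IsSmoothProjectiveVariety 1 Y ∧ IsMRCFibration X Y φ ∧ ¬ IsLocallyTrivial X Y φ :=
  Pool.Agent.Helper922.MR.result_main

end Pool.Agent.Results.MP_cc389e_ag.MRCNotLocallyTrivial
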